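import Pool.Agent.Results.MP_ee5b76_ag.DefectUnbounded

/-!
# The smoothability defect grows at least like `(2/27) (deg Γ)²`

The starting result `DefectUnbounded` says that the smoothability defect is not bounded by any
multiple of the degree. Here the count of parameters is done with all quadratic monomials: for all
`n, r ≥ 1` there is a scheme `Γ` with Hilbert function `(1, n, ≤ r)` such that every finite
smoothable scheme that contains `Γ` has degree at least `r n (n + 1) / (2 (n + r))`.
-/

open MvPolynomial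

universe u

namespace Pool.Agent.Results.MP_ee5b76_ag.QuadraticDefect

open Pool.Agent.Results.MP_ee5b76_ag.DefectUnbounded

/-- the quadratic monomials -/
abbrev Mon (n : ℕ) : Type := Σ j : Fin n, Fin (j.val + 1)

/-- the larger index -/
def ma {n : ℕ} (t : Mon n) : Fin n := t.1

/-- the smaller index -/
def mb {n : ℕ} (t : Mon n) : Fin n := ⟨t.2.val, lt_of_le_of_lt (Nat.lt_succ_iff.1 t.2.2) t.1.2⟩

lemma mb_le {n : ℕ} (t : Mon n) : mb t ≤ ma t := Nat.lt_succ_iff.1 t.2.2

lemma mon_ext {n : ℕ} {t t' : Mon n} (h1 : ma t = ma t') (h2 : mb t = mb t') : t = t' := by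
  obtain ⟨j, i⟩ := t
  obtain ⟨j', i'⟩ := t'
  simp only [ma] at h1
  subst h1
  simp only [mb, Fin.mk.injEq] at h2
  have : i = i' := Fin.ext h2
  rw [this]

lemma card_mon (n : ℕ) : 2 * Fintype.card (Mon n) = n * (n + 1) := by
  rw [Fintype.card_sigma]
  simp only [Fintype.card_fin]
  rw [Fin.sum_univ_eq_sum_range (fun j => j + 1) n]
  induction n with
  | zero => simp
  | succ n ih => rw [Finset.sum_range_succ, mul_add, ih]; ring

lemma quad_inj (n : ℕ) : Function.Injective (quad (ma (n := n)) mb) := by
  classical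
  intro t t' h
  have hx : ∀ x : Fin n, (if ma t = x then 1 else 0) + (if mb t = x then 1 else 0) =
      (if ma t' = x then 1 else 0) + (if mb t' = x then 1 else 0) := by
    intro x
    have h1 := congrArg (fun f : Fin n →₀ ℕ => f x) h
    simpa only [quad, Finsupp.add_apply, Finsupp.single_apply] using h1
  have hb := mb_le t
  have hb' := mb_le t'
  have h1 : ma t = ma t' := by
    by_contra hne
    have e1 := hx (ma t)
    have e2 := hx (ma t')
    rw [if_pos (rfl : ma t = ma t), if_neg (show ¬ ma t' = ma t from fun h => hne h.symm)] at e1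
    rw [if_neg (show ¬ ma t = ma t' from hne), if_pos (rfl : ma t' = ma t')] at e2
    by_cases h3 : mb t' = ma t
    · by_cases h4 : mb t = ma t'
      · apply hne
        apply le_antisymm
        · rw [← h3]; exact hb'
        · rw [← h4]; exact hb
      · rw [if_neg h4] at e2
        omega
    · rw [if_neg h3] at e1
      omega
  have h2 : mb t = mb t' := by
    by_contra hne
    have e1 := hx (mb t)
    rw [h1, if_pos (rfl : mb t = mb t), if_neg (show ¬ mb t' = mb t from fun h => hne h.symm)] at e1
    omega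
  exact mon_ext h1 h2

/-- The general bound: for all `n, r ≥ 1` there is a finite scheme of degree at most `1 + n + r` in
affine `n`-space such that `(n + r)` times the least degree of a smoothable scheme containing it is
at least `r n (n + 1) / 2`. -/
theorem general (k : Type u) [Field k] [IsAlgClosed k] (n r : ℕ) (hn : 1 ≤ n) (hr : 1 ≤ r) :
    ∃ I : Ideal (MvPolynomial (Fin n) k), IsFiniteScheme I ∧ deg I ≤ 1 + n + r ∧
      r * (n * (n + 1)) ≤ 2 * (n + r) * (deg I + smoothabilityDefect I) := by
  classical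
  have : Infinite k := IsAlgClosed.instInfinite
  set T : ℕ := Fintype.card (Mon n) with hT
  have hT2 : 2 * T = n * (n + 1) := card_mon n
  have hT1 : 1 ≤ T := by
    have : 1 * 1 ≤ n * (n + 1) := Nat.mul_le_mul hn (by omega)
    omega
  have hrT : 1 ≤ r * T := Nat.mul_pos hr hT1
  set D : ℕ := (r * T - 1) / (n + r) with hD
  have hD1 : (n + r) * D ≤ r * T - 1 := Nat.mul_div_le _ _
  have hD2 : r * T ≤ (n + r) * (D + 1) := by
    have := Nat.lt_mul_div_succ (r * T - 1) (show 0 < n + r by omega)
    rw [← hD] at this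
    omega
  obtain ⟨c, hc⟩ := lower_bound (k := k) (E := Fin r) (ma (n := n)) mb (quad_inj n) D (by
    rw [Fintype.card_fin, ← hT, Nat.add_comm r n]
    omega)
  obtain ⟨hfin, hrank⟩ := finite_algIdeal (k := k) (ma (n := n)) mb c
  rw [Fintype.card_fin] at hrank
  refine ⟨algIdeal ma mb c, hfin, hrank, ?_⟩
  have hnonempty : ({m : ℕ | ∃ I' : Ideal (MvPolynomial (Fin n) k), I' ≤ algIdeal ma mb c ∧
      IsFiniteScheme I' ∧ IsSmoothable I' ∧ deg I' = deg (algIdeal ma mb c) + m}).Nonempty := by
    obtain ⟨I', hfin', hs, hlow⟩ := exists_smoothable (k := k) n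
    have hle : I' ≤ algIdeal ma mb c := by
      intro f hf
      rw [mem_algIdeal]
      refine ⟨hlow f hf 0 (by simp), fun i => hlow f hf _ (by simp), fun e => ?_⟩
      rw [func_apply]
      apply Finset.sum_eq_zero
      intro t _
      rw [hlow f hf (quad ma mb t) (by simp [quad]), mul_zero]
    have hle' : Module.finrank k (MvPolynomial (Fin n) k ⧸ algIdeal ma mb c) ≤
        Module.finrank k (MvPolynomial (Fin n) k ⧸ I') := by
      apply LinearMap.finrank_le_finrank_of_surjective
        (f := (Ideal.Quotient.factorₐ k hle).toLinearMap)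
      exact Ideal.Quotient.factor_surjective hle
    exact ⟨_, I', hle, hfin', hs, (Nat.add_sub_of_le hle').symm⟩
  obtain ⟨I', hle, hfin', hs, heq⟩ := Nat.sInf_mem hnonempty
  have h1 : D < deg I' := hc I' hle hfin' hs
  have h2 : deg (algIdeal ma mb c) + smoothabilityDefect (algIdeal ma mb c) = deg I' := heq.symm
  rw [h2]
  calc r * (n * (n + 1)) = 2 * (r * T) := by rw [← hT2]; ring
    _ ≤ 2 * ((n + r) * (D + 1)) := Nat.mul_le_mul_left 2 hD2
    _ ≤ 2 * ((n + r) * deg I') := Nat.mul_le_mul_left 2 (Nat.mul_le_mul_left _ h1)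
    _ = 2 * (n + r) * deg I' := by ring

/-- **The smoothability defect grows at least quadratically.** Let `k` be an algebraically closed
field.
(1) For all `n, r ≥ 1` some finite subscheme `Γ` of affine `n`-space has degree at most `1 + n + r`,
and every finite smoothable scheme containing it has degree at least `r n (n + 1) / (2 (n + r))`,
that is, `δ(Γ) + deg Γ ≥ r n (n + 1) / (2 (n + r))`.
(2) For every `d ≥ 4` some finite scheme `Γ` of degree at most `d` has
`δ(Γ) + deg Γ ≥ (2 d² - 9 d + 9) / 27`.
(3) Some `Γ` of degree at most `28` in affine `18`-space has `δ(Γ) > deg Γ`. -/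
theorem result (k : Type u) [Field k] [IsAlgClosed k] :
    (∀ n r : ℕ, 1 ≤ n → 1 ≤ r → ∃ I : Ideal (MvPolynomial (Fin n) k),
      IsFiniteScheme I ∧ deg I ≤ 1 + n + r ∧
        r * (n * (n + 1)) ≤ 2 * (n + r) * (deg I + smoothabilityDefect I)) ∧
    (∀ d : ℕ, 4 ≤ d → ∃ (n : ℕ) (I : Ideal (MvPolynomial (Fin n) k)),
      IsFiniteScheme I ∧ deg I ≤ d ∧
        2 * d ^ 2 + 9 ≤ 27 * (deg I + smoothabilityDefect I) + 9 * d) ∧
    ∃ I : Ideal (MvPolynomial (Fin 18) k),
      IsFiniteScheme I ∧ deg I ≤ 28 ∧ deg I < smoothabilityDefect I := by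
  refine ⟨general k, ?_, ?_⟩
  · intro d hd
    obtain ⟨e, he⟩ : ∃ e, e = (d - 1) / 3 := ⟨_, rfl⟩
    have he1 : 1 ≤ e := by omega
    have he2 : 3 * e + 1 ≤ d := by omega
    have he3 : d ≤ 3 * e + 3 := by omega
    obtain ⟨I, h1, h2, h3⟩ := general k (2 * e) e (by omega) he1
    refine ⟨2 * e, I, h1, by omega, ?_⟩
    have h4 : e * (2 * e + 1) ≤ 3 * (deg I + smoothabilityDefect I) := by
      have h5 : (2 * e * e) * (e * (2 * e + 1)) ≤
          (2 * e * e) * (3 * (deg I + smoothabilityDefect I)) := by
        have h6 := Nat.mul_le_mul_left e h3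
        calc (2 * e * e) * (e * (2 * e + 1)) = e * (e * (2 * e * (2 * e + 1))) := by ring
          _ ≤ e * (2 * (2 * e + e) * (deg I + smoothabilityDefect I)) := h6
          _ = (2 * e * e) * (3 * (deg I + smoothabilityDefect I)) := by ring
      exact Nat.le_of_mul_le_mul_left h5 (by positivity)
    nlinarith [h4, he3, he1, he2]
  · obtain ⟨I, h1, h2, h3⟩ := general k 18 9 (by norm_num) (by norm_num)
    refine ⟨I, h1, h2, ?_⟩
    omega

end Pool.Agent.Results.MP_ee5b76_ag.QuadraticDefect
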